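import Pool.Agent.TH612.GS.Stm3
import Pool.Agent.TH572.Saw4846
import Pool.Agent.TH547.FM.NS

set_option autoImplicit false

/-!
Project GF, piece AQ: zeta minus its partial sum of length between `2 T` and `4 T` in `L¹`.
-/

namespace Pool.Agent.TH321.GF

open Complex Filter Topology MeasureTheory Set
open Pool.Agent.TH158.FM (pt KK TT saw_all ns_all)
open Pool.Agent.TH612.GS (z zN PN)

lemma AQ_sq (M : ℕ) : ∑ m ∈ Finset.Icc 1 (M + 1), 1 / (m : ℝ) ^ 2 ≤ 2 - 1 / ((M : ℝ) + 1) := by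
  induction M with
  | zero => norm_num
  | succ M ih =>
    rw [Finset.sum_Icc_succ_top (by omega)]
    have h : 1 / (((M + 1 + 1 : ℕ) : ℝ)) ^ 2 ≤ 1 / ((M : ℝ) + 1) - 1 / (((M + 1 : ℕ) : ℝ) + 1) := by
      push_cast
      have h0 : (0 : ℝ) ≤ M := Nat.cast_nonneg M
      rw [div_sub_div _ _ (by positivity) (by positivity), div_le_div_iff₀ (by positivity)
        (by positivity)]
      nlinarith
    linarith

lemma AQ_sq' (M : ℕ) : ∑ m ∈ Finset.Icc 1 M, 1 / (m : ℝ) ^ 2 ≤ 2 := by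
  rcases M with _ | M
  · simp
  · have h := AQ_sq M
    have h0 : (0 : ℝ) < (M : ℝ) + 1 := by positivity
    have h1 : 0 < 1 / ((M : ℝ) + 1) := by positivity
    linarith

lemma AQ_term (u : ℝ) (X m : ℕ) (hX : 1 ≤ X) (hm : 1 ≤ m) (hu0 : 0 < u) (huX : u ≤ X) :
    ‖TT m X u‖ ≤ (1 / (2 * Real.sqrt X)) * (1 / (m : ℝ) ^ 2) := by
  have hX0 : (0 : ℝ) < X := by exact_mod_cast hX
  have hX1 : (1 : ℝ) ≤ X := by exact_mod_cast hX
  have hm0 : (0 : ℝ) < m := by exact_mod_cast hm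
  have hm1 : (1 : ℝ) ≤ m := by exact_mod_cast hm
  set q := Real.sqrt X with hq
  have hq0 : 0 < q := Real.sqrt_pos.2 hX0
  have hpi : 3 < Real.pi := Real.pi_gt_three
  have hmX : (X : ℝ) ≤ m * X := by nlinarith
  have hlow : 5 * (m * X : ℝ) ≤ 2 * Real.pi * m * X - u := by
    have h1 : 6 * (m * X : ℝ) ≤ 2 * Real.pi * m * X := by
      have h2 : 0 < (m * X : ℝ) := by positivity
      nlinarith
    linarith
  have hlow2 : 5 * (m * X : ℝ) ≤ 2 * Real.pi * m * X + u := by linarith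
  have hmX0 : 0 < (m * X : ℝ) := by positivity
  have hlt : u < 2 * Real.pi * m * X := by linarith
  have k1 : ‖KK m X u‖ ≤ 2 / (q * (5 * (m * X))) := by
    refine (ns_all.1 u X m hX0 hm hu0 hlt).trans ?_
    rw [← hq]
    gcongr
  have k2 : ‖KK (-m) X u‖ ≤ 2 / (q * (5 * (m * X))) := by
    refine (ns_all.2 u X m hX0 hm hu0.le).trans ?_
    rw [← hq]
    gcongr
  have hs : ‖pt (1 / 2) u‖ ≤ 2 * X := by
    unfold pt
    refine (norm_add_le _ _).trans ?_
    rw [norm_mul, Complex.norm_I, mul_one, Complex.norm_real, Complex.norm_real, Real.norm_eq_abs,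
      Real.norm_eq_abs, abs_of_pos hu0, abs_of_pos (by norm_num : (0 : ℝ) < 1 / 2)]
    linarith
  have hd : ‖(2 * Real.pi * I * m : ℂ)‖ = 2 * Real.pi * m := by
    rw [norm_mul, norm_mul, norm_mul, Complex.norm_I, Complex.norm_real, Complex.norm_natCast,
      Real.norm_eq_abs, abs_of_pos Real.pi_pos]
    simp
  unfold TT
  rw [norm_mul, norm_div, hd]
  have k3 : ‖KK m X u - KK (-m) X u‖ ≤ 4 / (q * (5 * (m * X))) := by
    refine (norm_sub_le _ _).trans ?_
    have : (4 : ℝ) / (q * (5 * (m * X))) = 2 / (q * (5 * (m * X))) + 2 / (q * (5 * (m * X))) := by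
      ring
    rw [this]
    exact add_le_add k1 k2
  have k4 : ‖pt (1 / 2) u‖ / (2 * Real.pi * m) ≤ 2 * X / (6 * m) := by
    gcongr
    linarith
  calc ‖pt (1 / 2) u‖ / (2 * Real.pi * m) * ‖KK m X u - KK (-m) X u‖
      ≤ 2 * X / (6 * m) * (4 / (q * (5 * (m * X)))) := by gcongr
    _ = (4 / 15) * (1 / q * (1 / (m : ℝ) ^ 2)) := by field_simp; ring
    _ ≤ (1 / 2) * (1 / q * (1 / (m : ℝ) ^ 2)) := by
        have : 0 ≤ 1 / q * (1 / (m : ℝ) ^ 2) := by positivity
        linarith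
    _ = (1 / (2 * q)) * (1 / (m : ℝ) ^ 2) := by field_simp

lemma AQ_pw (u : ℝ) (X : ℕ) (hX : 1 ≤ X) (hu0 : 0 < u) (huX : u ≤ X) :
    ‖z u - PN X u‖ ≤ 3 * Real.sqrt X / (1 + u) + 3 / (2 * Real.sqrt X) := by
  have hX0 : (0 : ℝ) < X := by exact_mod_cast hX
  have hXpos : 0 < X := hX
  set q := Real.sqrt X with hq
  have hq0 : 0 < q := Real.sqrt_pos.2 hX0
  have hs : pt (1 / 2) u = 1 / 2 + I * (u : ℂ) := by
    unfold pt; push_cast; ring
  have hsaw := saw_all u X hX0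
  rw [Nat.floor_natCast, Int.fract_natCast, hs] at hsaw
  rw [Complex.ofReal_natCast] at hsaw
  set s : ℂ := 1 / 2 + I * (u : ℂ) with hsd
  have hre : s.re = 1 / 2 := by simp [hsd]
  have him : s.im = u := by simp [hsd]
  have hlim : ‖riemannZeta s - ∑ n ∈ Finset.Icc 1 X, (n : ℂ) ^ (-s) +
      (X : ℂ) ^ (1 - s) / (1 - s) - ((0 - 1 / 2 : ℝ) : ℂ) * (X : ℂ) ^ (-s)‖ ≤ 1 / q := by
    refine le_of_tendsto hsaw.norm (Eventually.of_forall fun M => ?_)
    refine (norm_sum_le _ _).trans ?_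
    calc ∑ m ∈ Finset.Icc 1 M, ‖TT m X u‖
        ≤ ∑ m ∈ Finset.Icc 1 M, (1 / (2 * q)) * (1 / (m : ℝ) ^ 2) :=
          Finset.sum_le_sum fun m hm => AQ_term u X m hX (Finset.mem_Icc.1 hm).1 hu0 huX
      _ = (1 / (2 * q)) * ∑ m ∈ Finset.Icc 1 M, 1 / (m : ℝ) ^ 2 := by rw [Finset.mul_sum]
      _ ≤ (1 / (2 * q)) * 2 := by
          have := AQ_sq' M
          gcongr
      _ = 1 / q := by field_simp
  have n1 : ‖(X : ℂ) ^ (-s)‖ = 1 / q := by
    rw [Complex.norm_natCast_cpow_of_pos hXpos, Complex.neg_re, hre, Real.rpow_neg hX0.le, hq,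
      Real.sqrt_eq_rpow]
    exact (one_div _).symm
  have n2 : ‖(X : ℂ) ^ (1 - s)‖ = q := by
    rw [Complex.norm_natCast_cpow_of_pos hXpos, Complex.sub_re, hre, hq, Real.sqrt_eq_rpow]
    norm_num
  have hs1n : (1 + u) / 3 ≤ ‖1 - s‖ := by
    have h1 := Complex.abs_im_le_norm (1 - s)
    have h2 : (1 - s).im = -u := by rw [Complex.sub_im, him]; simp
    rw [h2, abs_neg, abs_of_nonneg hu0.le] at h1
    have h3 := Complex.abs_re_le_norm (1 - s)
    have h4 : (1 - s).re = 1 / 2 := by rw [Complex.sub_re, hre]; norm_num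
    rw [h4, abs_of_pos (by norm_num : (0 : ℝ) < 1 / 2)] at h3
    linarith
  have hu1 : 0 < 1 + u := by linarith
  have b2 : ‖(X : ℂ) ^ (1 - s) / (1 - s)‖ ≤ 3 * q / (1 + u) := by
    rw [norm_div, n2, div_le_div_iff₀ (by linarith [div_pos hu1 (by norm_num : (0:ℝ) < 3)]) hu1]
    have h5 : 1 + u ≤ 3 * ‖1 - s‖ := by linarith
    calc q * (1 + u) ≤ q * (3 * ‖1 - s‖) := by gcongr
      _ = 3 * q * ‖1 - s‖ := by ring
  have b3 : ‖((0 - 1 / 2 : ℝ) : ℂ) * (X : ℂ) ^ (-s)‖ = 1 / (2 * q) := by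
    rw [norm_mul, n1, Complex.norm_real, Real.norm_eq_abs]
    rw [show |(0 - 1 / 2 : ℝ)| = 1 / 2 by norm_num]
    field_simp
  have e0 : z u - PN X u = (riemannZeta s - ∑ n ∈ Finset.Icc 1 X, (n : ℂ) ^ (-s) +
      (X : ℂ) ^ (1 - s) / (1 - s) - ((0 - 1 / 2 : ℝ) : ℂ) * (X : ℂ) ^ (-s)) -
      (X : ℂ) ^ (1 - s) / (1 - s) + ((0 - 1 / 2 : ℝ) : ℂ) * (X : ℂ) ^ (-s) := by
    unfold z PN zN
    ring
  rw [e0]
  refine (norm_add_le _ _).trans ?_
  rw [b3]
  have t1 := norm_sub_le (riemannZeta s - ∑ n ∈ Finset.Icc 1 X, (n : ℂ) ^ (-s) +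
      (X : ℂ) ^ (1 - s) / (1 - s) - ((0 - 1 / 2 : ℝ) : ℂ) * (X : ℂ) ^ (-s))
      ((X : ℂ) ^ (1 - s) / (1 - s))
  have e7 : (3 : ℝ) / (2 * q) = 1 / q + 1 / (2 * q) := by field_simp; norm_num
  rw [e7]
  linarith

theorem t_AQ : Pool.Agent.TH612.GS.S_AQ := by
  refine ⟨20, 3, by norm_num, by norm_num, ?_⟩
  intro T X hT h1 h2
  have hT0 : 0 < T := by linarith
  set p := Real.sqrt T with hp
  have hp0 : 0 < p := Real.sqrt_pos.2 hT0
  have hp2 : p ^ 2 = T := Real.sq_sqrt hT0.le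
  rw [← Real.sqrt_eq_rpow, ← hp]
  have hX0 : (0 : ℝ) < X := by linarith
  have hX : 1 ≤ X := by
    have : 0 < X := by exact_mod_cast hX0
    omega
  have hXp : Real.sqrt X ≤ 2 * p := by
    apply Real.sqrt_le_iff.2
    refine ⟨by positivity, h2.trans ?_⟩
    rw [mul_pow, hp2]; norm_num
  have hpX : p ≤ Real.sqrt X := Real.sqrt_le_sqrt (by linarith)
  have hpt : ∀ u ∈ Ioc (0 : ℝ) (2 * T), ‖z u - PN X u‖ ≤ 6 * p / (1 + u) + 2 / p := by
    intro u hu
    refine (AQ_pw u X hX hu.1 (by linarith [hu.2])).trans ?_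
    have hu1 : 0 < 1 + u := by linarith [hu.1]
    have a1 : 3 * Real.sqrt X / (1 + u) ≤ 6 * p / (1 + u) :=
      div_le_div_of_nonneg_right (by linarith) hu1.le
    have a2 : 3 / (2 * Real.sqrt X) ≤ 2 / p := by
      rw [div_le_div_iff₀ (by positivity) hp0]
      nlinarith
    linarith
  have hcont : ContinuousOn (fun u : ℝ => 6 * p / (1 + u) + 2 / p) (Icc 0 (2 * T)) := by
    apply ContinuousOn.add _ continuousOn_const
    apply ContinuousOn.div continuousOn_const (continuousOn_const.add continuousOn_id)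
    intro u hu
    have h0 : (0 : ℝ) ≤ u := hu.1
    exact ne_of_gt (show (0 : ℝ) < 1 + u by linarith)
  have hFTC : ∫ u in (0:ℝ)..(2 * T), (6 * p / (1 + u) + 2 / p)
      = (6 * p * Real.log (1 + 2 * T) + 2 / p * (2 * T)) -
        (6 * p * Real.log (1 + 0) + 2 / p * 0) := by
    apply intervalIntegral.integral_eq_sub_of_hasDerivAt
      (f := fun u => 6 * p * Real.log (1 + u) + 2 / p * u)
    · intro u hu
      rw [uIcc_of_le (by linarith)] at hu
      have hu1 : 1 + u ≠ 0 := by linarith [hu.1]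
      have d1 : HasDerivAt (fun u : ℝ => Real.log (1 + u)) (1 / (1 + u)) u :=
        ((hasDerivAt_id u).const_add 1).log hu1
      have d2 := (d1.const_mul (6 * p)).add ((hasDerivAt_id u).const_mul (2 / p))
      refine d2.congr_deriv ?_
      simp
      ring
    · apply ContinuousOn.intervalIntegrable
      rw [uIcc_of_le (by linarith)]
      exact hcont
  have hmono : ∫ u in (0:ℝ)..(2 * T), ‖z u - PN X u‖ ≤
      ∫ u in (0:ℝ)..(2 * T), (6 * p / (1 + u) + 2 / p) := by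
    rw [intervalIntegral.integral_of_le (by linarith), intervalIntegral.integral_of_le (by linarith)]
    apply integral_mono_of_nonneg
    · exact Eventually.of_forall fun u => norm_nonneg _
    · exact (hcont.integrableOn_Icc).mono_set Ioc_subset_Icc_self
    · rw [EventuallyLE, ae_restrict_iff' measurableSet_Ioc]
      exact Eventually.of_forall fun u hu => hpt u hu
  refine hmono.trans ?_
  rw [hFTC]
  have hlog1 : 1 ≤ Real.log T := by
    rw [Real.le_log_iff_exp_le hT0]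
    have := Real.exp_one_lt_d9
    linarith
  have hlog : Real.log (1 + 2 * T) ≤ 2 * Real.log T := by
    have h4 : Real.log (1 + 2 * T) ≤ Real.log (T ^ 2) := Real.log_le_log (by linarith) (by nlinarith)
    rw [Real.log_pow] at h4
    push_cast at h4
    linarith
  have e2 : 2 / p * (2 * T) = 4 * p := by
    rw [← hp2]; field_simp; ring
  rw [e2]
  simp only [add_zero, Real.log_one, mul_zero, sub_zero]
  have h8 : 6 * p * Real.log (1 + 2 * T) ≤ 6 * p * (2 * Real.log T) :=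
    mul_le_mul_of_nonneg_left hlog (by positivity)
  have h9 : 4 * p ≤ 4 * p * Real.log T := by
    have : 0 ≤ 4 * p := by positivity
    nlinarith
  have h10 : 0 ≤ p * Real.log T := by positivity
  nlinarith

end Pool.Agent.TH321.GF
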